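import Pool.Agent.H22.FOT.Defs

/-!
# FOT, module LTW: for odd girth a two-block graphon of mean `q` beats the constant `q`
-/

open MeasureTheory unitInterval Set Filter Topology

namespace Pool.FOT

open Pool.Agent.H99.LowerTail

/-- LTW -/
theorem t_ltw (hTWB : TWBStmt) (hGIR : GIRStmt) : LTWStmt := by
  classical
  intro V _ H hodd q hq0 hq1
  obtain ⟨A0, hA0, hA0odd, hmin⟩ := hGIR V H hodd
  set g := A0.card with hg
  set E := numEdges H with hE
  have hsub : ∀ A ∈ evens H, A ⊆ edges H := fun A hA =>
    Finset.mem_powerset.1 (Finset.mem_filter.1 hA).1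
  have hcard : ∀ A ∈ evens H, A.card ≤ E := fun A hA => Finset.card_le_card (hsub A hA)
  have hgE : g ≤ E := hcard A0 hA0
  have hg1 : 1 ≤ g := hA0odd.pos
  -- the size of `a`
  have hqE : 0 < q ^ (E - g) := pow_pos hq0 _
  obtain ⟨a, ha0, ha1, ha2, ha3, ha4⟩ : ∃ a : ℝ, 0 < a ∧ a ≤ q ∧ q + a < 1 ∧ a ≤ 1 ∧
      ((evens H).card + 1 : ℝ) * a < q ^ (E - g) := by
    have hc : (0 : ℝ) < (evens H).card + 1 := by positivity
    refine ⟨min (min (q / 2) ((1 - q) / 2)) (q ^ (E - g) / (2 * ((evens H).card + 1))), ?_, ?_, ?_,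
      ?_, ?_⟩
    · refine lt_min (lt_min (by linarith) (by linarith)) (by positivity)
    · have := min_le_left (min (q / 2) ((1 - q) / 2)) (q ^ (E - g) / (2 * ((evens H).card + 1)))
      have := min_le_left (q / 2) ((1 - q) / 2)
      linarith
    · have := min_le_left (min (q / 2) ((1 - q) / 2)) (q ^ (E - g) / (2 * ((evens H).card + 1)))
      have := min_le_right (q / 2) ((1 - q) / 2)
      linarith
    · have := min_le_left (min (q / 2) ((1 - q) / 2)) (q ^ (E - g) / (2 * ((evens H).card + 1)))
      have := min_le_left (q / 2) ((1 - q) / 2)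
      linarith
    · have h1 := min_le_right (min (q / 2) ((1 - q) / 2))
        (q ^ (E - g) / (2 * ((evens H).card + 1)))
      calc ((evens H).card + 1 : ℝ) * _ ≤ ((evens H).card + 1 : ℝ) *
            (q ^ (E - g) / (2 * ((evens H).card + 1))) := mul_le_mul_of_nonneg_left h1 hc.le
        _ = q ^ (E - g) / 2 := by field_simp
        _ < q ^ (E - g) := by linarith
  -- the graphon
  have hsg : ∀ x : I, sg x = 1 ∨ sg x = -1 := by
    intro x
    unfold sg
    split_ifs
    · exact Or.inl rfl
    · exact Or.inr rfl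
  have hss : ∀ x y : I, sg x * sg y = 1 ∨ sg x * sg y = -1 := by
    intro x y
    rcases hsg x with h | h <;> rcases hsg y with h' | h' <;> rw [h, h'] <;> norm_num
  have hmsg : Measurable sg := by
    unfold sg
    exact Measurable.ite (measurableSet_lt measurable_subtype_coe measurable_const)
      measurable_const measurable_const
  let W : Graphon :=
    { toFun := fun x y => q - a * (sg x * sg y)
      measurable' := measurable_const.sub
        (((hmsg.comp measurable_fst).mul (hmsg.comp measurable_snd)).const_mul a)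
      symm' := fun x y => by rw [mul_comm (sg x)]
      nonneg' := fun x y => by
        rcases hss x y with h | h <;> rw [h] <;> linarith
      le_one' := fun x y => by
        rcases hss x y with h | h <;> rw [h] <;> linarith }
  obtain ⟨hmean, hden⟩ := hTWB V H q a W (fun _ _ => rfl)
  refine ⟨W, q + a, ha2, ?_, hmean, ?_⟩
  · intro x y
    change q - a * (sg x * sg y) ≤ q + a
    rcases hss x y with h | h <;> rw [h] <;> linarith
  rw [hden]
  have hemp : (∅ : Finset (Sym2 V)) ∈ evens H := by
    unfold evens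
    rw [Finset.mem_filter]
    exact ⟨Finset.empty_mem_powerset _, fun v => by simp⟩
  rw [← Finset.add_sum_erase _ _ hemp]
  have hA0e : A0 ∈ (evens H).erase ∅ := by
    refine Finset.mem_erase.2 ⟨?_, hA0⟩
    rintro h
    rw [h, Finset.card_empty] at hg
    omega
  rw [← Finset.add_sum_erase _ _ hA0e]
  have hg0 : (-a) ^ g = - a ^ g := hA0odd.neg_pow a
  have hrest : ∀ A ∈ ((evens H).erase ∅).erase A0,
      q ^ (E - A.card) * (-a) ^ A.card ≤ a ^ (g + 1) := by
    intro A hA
    have hA1 := Finset.mem_erase.1 (Finset.mem_erase.1 hA).2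
    have hle : g ≤ A.card := hmin A hA1.2 (Finset.nonempty_iff_ne_empty.2 hA1.1)
    have hq' : 0 ≤ q ^ (E - A.card) := pow_nonneg hq0.le _
    have hq'' : q ^ (E - A.card) ≤ 1 := pow_le_one₀ hq0.le hq1.le
    rcases eq_or_lt_of_le hle with h | h
    · rw [← h, hg0]
      have : 0 ≤ q ^ (E - g) * a ^ g := by positivity
      have : 0 ≤ a ^ (g + 1) := by positivity
      nlinarith
    · have h1 : (-a) ^ A.card ≤ a ^ A.card := by
        have := le_abs_self ((-a) ^ A.card)
        rw [abs_pow, abs_neg, abs_of_pos ha0] at this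
        exact this
      have h2 : a ^ A.card ≤ a ^ (g + 1) := pow_le_pow_of_le_one ha0.le ha3 h
      have h3 : 0 ≤ a ^ A.card := by positivity
      calc q ^ (E - A.card) * (-a) ^ A.card ≤ q ^ (E - A.card) * a ^ A.card :=
            mul_le_mul_of_nonneg_left h1 hq'
        _ ≤ 1 * a ^ A.card := mul_le_mul_of_nonneg_right hq'' h3
        _ ≤ a ^ (g + 1) := by rw [one_mul]; exact h2
  have hsum := Finset.sum_le_sum hrest
  rw [Finset.sum_const, nsmul_eq_mul] at hsum
  have hc1 : ((((evens H).erase ∅).erase A0).card : ℝ) ≤ (evens H).card + 1 := by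
    have h1 : (((evens H).erase ∅).erase A0).card ≤ (evens H).card :=
      Finset.card_le_card ((Finset.erase_subset _ _).trans (Finset.erase_subset _ _))
    have : ((((evens H).erase ∅).erase A0).card : ℝ) ≤ (evens H).card := by exact_mod_cast h1
    linarith
  have hag : 0 < a ^ g := pow_pos ha0 _
  have h4 : ((((evens H).erase ∅).erase A0).card : ℝ) * a ^ (g + 1) < q ^ (E - g) * a ^ g := by
    calc ((((evens H).erase ∅).erase A0).card : ℝ) * a ^ (g + 1)
        ≤ ((evens H).card + 1 : ℝ) * a ^ (g + 1) :=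
          mul_le_mul_of_nonneg_right hc1 (by positivity)
      _ = (((evens H).card + 1 : ℝ) * a) * a ^ g := by ring
      _ < q ^ (E - g) * a ^ g := mul_lt_mul_of_pos_right ha4 hag
  rw [Finset.card_empty, pow_zero, Nat.sub_zero, mul_one, hg0]
  linarith

end Pool.FOT
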