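import Pool.Agent.H22.FOT.Defs

/-!
# FOT, module RLT: a left neighbourhood of `p` is replica symmetric
-/

open MeasureTheory unitInterval Set Filter Topology

namespace Pool.FOT

open Pool.Agent.H99.LowerTail

/-- RLT -/
theorem t_rlt (hLOC : LOCStmt) (hCVX : CVXStmt) : RLTStmt := by
  intro V _ H hH p hp0 hp1
  obtain ⟨ε, hε, hloc⟩ := hLOC V H hH p (p / 2) (by linarith) (by linarith) hp1
  have hself : relEnt p p = 0 := relEnt_self hp0 hp1
  have hL : Ld p p = 0 := by
    unfold Ld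
    rw [div_self (mul_ne_zero hp0.ne' (by linarith)), Real.log_one]
  have hcv : ∀ s : ℝ, 0 ≤ s → s ≤ 1 → 2 * (s - p) ^ 2 ≤ relEnt p s := by
    intro s h0 h1
    have := hCVX p p s hp0 hp1 hp0 hp1 h0 h1
    rw [hself, hL] at this
    linarith
  -- the choice of `q`
  have hcont : Continuous (fun q : ℝ => relEnt p q + 2 * (p - q) ^ 2) :=
    (continuous_relEnt hp0 hp1).add (by fun_prop)
  have h0 : relEnt p p + 2 * (p - p) ^ 2 < ε := by
    rw [hself]
    simpa using hε
  obtain ⟨δ, hδ, hball⟩ := Metric.eventually_nhds_iff.1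
    (hcont.continuousAt.eventually_lt continuousAt_const h0)
  obtain ⟨q, hq1, hq2, hq3⟩ : ∃ q : ℝ, p / 2 ≤ q ∧ q < p ∧ |q - p| < δ := by
    refine ⟨max (p / 2) (p - δ / 2), le_max_left _ _, max_lt (by linarith) (by linarith), ?_⟩
    rw [abs_lt]
    constructor
    · have := le_max_right (p / 2) (p - δ / 2)
      linarith
    · have : max (p / 2) (p - δ / 2) < p := max_lt (by linarith) (by linarith)
      linarith
  have hqε : relEnt p q + 2 * (p - q) ^ 2 < ε := hball (by rwa [Real.dist_eq])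
  refine ⟨q, by linarith, hq2, fun W hW => ?_⟩
  by_contra hlt
  push Not at hlt
  have hi1 : Integrable (fun z : I × I => 2 * (W z.1 z.2 - p) ^ 2) :=
    integrable_comp (f := fun s => 2 * (s - p) ^ 2) (by fun_prop) W
  have hi2 : Integrable (fun z : I × I => relEnt p (W z.1 z.2)) :=
    integrable_comp (continuous_relEnt hp0 hp1) W
  have h1 : ∫ z : I × I, 2 * (W z.1 z.2 - p) ^ 2 ≤ cost p W :=
    integral_mono hi1 hi2 fun z => hcv _ (W.nonneg' _ _) (W.le_one' _ _)
  have h2 : nsq W q ≤ (∫ z : I × I, 2 * (W z.1 z.2 - p) ^ 2) + 2 * (p - q) ^ 2 := by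
    have h3 : (∫ z : I × I, 2 * (W z.1 z.2 - p) ^ 2) + 2 * (p - q) ^ 2 =
        ∫ z : I × I, (2 * (W z.1 z.2 - p) ^ 2 + 2 * (p - q) ^ 2) := by
      rw [integral_add hi1 (integrable_const _)]
      simp
    rw [h3]
    unfold nsq
    refine integral_mono (integrable_comp (f := fun s => (s - q) ^ 2) (by fun_prop) W)
      (hi1.add (integrable_const _)) fun z => ?_
    change (W z.1 z.2 - q) ^ 2 ≤ 2 * (W z.1 z.2 - p) ^ 2 + 2 * (p - q) ^ 2
    nlinarith [sq_nonneg (W z.1 z.2 - p - (p - q))]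
  have h4 : nsq W q ≤ ε := by linarith
  have h5 := (hloc q hq1 hq2.le W h4 hW).1
  linarith

end Pool.FOT
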