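import Pool.Agent.H22.FOT.Defs

/-!
# FOT, module TRN: transport to the unit interval
-/

open MeasureTheory unitInterval Set Filter Topology

namespace Pool.FOT

open Pool.Agent.H99.LowerTail

/-- TRN -/
theorem t_trn : TRNStmt := by
  intro ν U hν
  haveI := hν
  obtain ⟨T, hT, hmap⟩ := MeasureTheory.Measure.exists_measurable_map_eq (Y := KK) ν
  have hTT : Measurable (fun z : I × I => (T z.1, T z.2)) :=
    (hT.comp measurable_fst).prodMk (hT.comp measurable_snd)
  let W : Graphon :=
    { toFun := fun x y => U (T x) (T y)
      measurable' := U.measurable'.comp hTT
      symm' := fun x y => U.symm' _ _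
      nonneg' := fun x y => U.nonneg' _ _
      le_one' := fun x y => U.le_one' _ _ }
  refine ⟨W, ?_, ?_⟩
  · intro V _ H
    rw [homDensity_eq]
    unfold sDens
    have e : (Measure.pi fun _ : V => ν) =
        (Measure.pi fun _ : V => (volume : Measure I)).map (fun x v => T (x v)) := by
      haveI : ∀ _ : V, SigmaFinite ((volume : Measure I).map T) := fun _ => by
        rw [hmap]
        infer_instance
      rw [Measure.pi_map_pi (f := fun _ => T) (fun _ => hT.aemeasurable)]
      congr 1
      funext _
      exact hmap.symm
    have hTp : Measurable (fun (x : V → I) (v : V) => T (x v)) :=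
      measurable_pi_lambda _ fun v => hT.comp (measurable_pi_apply v)
    have hm : Measurable (fun x : V → KK => ∏ e ∈ edges H, sVal U U.symm' x e) := by
      refine Finset.measurable_prod _ fun e _ => ?_
      induction e using Sym2.ind with
      | _ i j =>
        have h : Measurable (fun x : V → KK => (x i, x j)) :=
          (measurable_pi_apply i).prodMk (measurable_pi_apply j)
        exact Measurable.comp (g := fun z : KK × KK => U z.1 z.2) U.measurable' h
    rw [e, integral_map hTp.aemeasurable hm.aestronglyMeasurable]
    refine integral_congr_ae (Filter.Eventually.of_forall fun x => ?_)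
    refine Finset.prod_congr rfl fun e _ => ?_
    induction e using Sym2.ind with
    | _ i j => rfl
  · intro g hg
    have e : ν.prod ν = ((volume : Measure I).prod (volume : Measure I)).map
        (fun z : I × I => (T z.1, T z.2)) := by
      have := Measure.map_prod_map (volume : Measure I) (volume : Measure I) hT hT
      rw [hmap] at this
      exact this
    have hm : Measurable (fun z : KK × KK => g (U z.1 z.2)) := hg.comp U.measurable'
    rw [e, integral_map hTT.aemeasurable hm.aestronglyMeasurable]
    rfl

end Pool.FOT
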